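import Pool.Agent.R425.T.EqM
import Pool.Agent.R901.EC.X11
import Pool.Agent.K4H13.BK.Tensor

/-!
# The order of vanishing formula at `p = 2` for `h¹(E_i)(1) ⊗ N` and all the Artin motives `N` of infinite
# abelian extensions of `ℚ`

`E_1, …, E_k` are elliptic curves over `ℚ`, given with their newforms, with trivial 2-Selmer group over
`ℚ` and with `L(E_i, 1) ≠ 0`; they need not have complex multiplication.  A prime `q` is admissible if
`q ∤ 6 Δ_i` and the number of the points of `E_i` over `ℤ/q` is odd for all `i`.  Let `F_∞/ℚ` be an abelian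
extension, of finite or infinite degree.  The formula for `F_∞` is the following statement:

for every Artin motive `N` over `ℚ` with rational coefficients, of any rank `g`, that is trivialized by a
finite extension of `ℚ` in `F_∞` (it is given by a lattice `ℤ^g` with an action `ρ` of the Galois group) the
formula of the problem holds for all the motives `M = h¹(E_i)(1) ⊗ N = h¹(A)(1)`, `A = E_i ⊗ ℤ^g`, and
`p = 2`, with both sides zero:
* `M` is polarized, by the Weil pairing and a positive definite invariant form on `ℤ^g`;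
* the Euler product `L(s, M)` over all the primes, convergent for `Re s > 1/2`, extends to an entire
  function which is not zero at `s = 0`;
* `H⁰(ℚ, V_2 A) = 0` and the Bloch–Kato Selmer group `H¹_f(ℚ, V_2 A)` is zero, `V_2 A = V_2 E_i ⊗ N`.

By the lemma of Shapiro this contains the formula for `h¹(E_i)(1) ⊗ N` over every number field `F` in
`F_∞` and every Artin motive `N` over `F` trivialized by `F_∞`.

Theorem.  Let `H` be any group of Dirichlet characters of order dividing `2 ^ n` and of squarefree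
conductors composed of admissible primes.

(1) If `H` is infinite, then it has an infinite subgroup `H'` such that the formula holds for the field
`F_∞` of all the characters in `H'` (an infinite abelian extension of exponent dividing `2 ^ n`, ramified at
infinitely many primes).

(2) For every `r` the formula holds for the field of the characters `c_1, …, c_r` for a proportion at least
`2 ^ (-V)` of the `r`-tuples `(c_1, …, c_r)` in `H`, where `V` is independent of `H`.

(3) The curve `X_0(11)` satisfies the hypotheses.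

The Selmer group is that of the continuous cocycles with values in `V_2 A` whose restriction to the
completion at every place is in the image of the Kummer map (`Pool.Agent.K4H13.BK`); this is the
condition of Bloch and Kato.  The values of the `L`-functions and the Tate-Shafarevich groups are from the
library of helper425 and helper901 (file `TensorArtinTwists` of problem `MP_26073e_nt`).
-/

set_option autoImplicit false

open Complex UpperHalfPlane MatrixGroups CongruenceSubgroup NumberField IsDedekindDomain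
open WeierstrassCurve

namespace Pool.Agent.Results.MP_ec4e4b_nt.InfiniteExtensionsArtinMotives

open Pool.Agent.TH841.NF.D (Sha)
open Pool.Agent.TH841.SH.D (Gal)
open Pool.Agent.K4H13.BK (HZeroTrivial HOneFTrivial)

/-- `N_p`: the number of pairs `(x, y) ∈ (ℤ/p)²` with `y² = x³ + a x + b`. -/
noncomputable def pointCount (a b : ℤ) (p : ℕ) : ℕ :=
  Nat.card {q : ZMod p × ZMod p // q.2 ^ 2 = q.1 ^ 3 + (a : ZMod p) * q.1 + (b : ZMod p)}

/-- `p` is a prime not dividing `2 Δ`, `Δ = -4 a³ - 27 b²`. -/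
def GoodPrime (a b : ℤ) (p : ℕ) : Prop :=
  p.Prime ∧ ¬ ((p : ℤ) ∣ 2 * (-4 * a ^ 3 - 27 * b ^ 2))

open Classical in
/-- `L(E, 1) ≠ 0` for `E : y² = x³ + a x + b`: there is an entire function `F` which for
`Re s > 3/2` is the incomplete L-series `∏_{p ∤ 2Δ} (1 - a_p p^{-s} + p^{1-2s})⁻¹`, `a_p = p - N_p`,
of `E` over `ℚ`, and `F(1) ≠ 0`. -/
def AnalyticRankZero (a b : ℤ) : Prop :=
  ∃ F : ℂ → ℂ, (Differentiable ℂ F ∧ ∀ s : ℂ, (3 : ℝ) / 2 < s.re →
    HasProd (fun p : ℕ => if GoodPrime a b p then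
      (1 - ((p : ℂ) - (pointCount a b p : ℂ)) * (p : ℂ) ^ (-s) + (p : ℂ) ^ (1 - 2 * s))⁻¹ else 1)
      (F s)) ∧ F 1 ≠ 0

/-- `q` is a prime, `q ∤ 2 Δ`, and the number `N_q + 1` of the points of `E : y² = x³ + a x + b` over
`ℤ/q` (with the point at infinity) is odd. -/
def Admissible (a b : ℤ) (q : ℕ) : Prop := GoodPrime a b q ∧ ¬ 2 ∣ pointCount a b q + 1

/-- The families `c = (c_q)` of characters `c_q` of the groups `(ℤ/q)ˣ`.  The family with `c_q = 1`
except for the primes `q` of a finite set stands for the Dirichlet character `χ_c = ∏ c_q` of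
squarefree conductor; this is an isomorphism of groups. -/
abbrev Fam : Type := (q : ℕ) → (ZMod q)ˣ →* ℂˣ

open Classical in
/-- The set of the `q` with `c_q ≠ 1` (if it is finite). -/
noncomputable def supp (c : Fam) : Finset ℕ :=
  if h : {q | c q ≠ 1}.Finite then h.toFinset else ∅

/-- The conductor of `χ_c`. -/
noncomputable def conductor (c : Fam) : ℕ := ∏ q ∈ supp c, q

/-- The value `χ_c(m)`. -/
noncomputable def value (c : Fam) (m : ℕ) : ℂ :=
  ∏ q ∈ supp c, if h : m.Coprime q then (c q (ZMod.unitOfCoprime m h) : ℂ) else 0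

/-- `H` is a group of Dirichlet characters of order dividing `2 ^ n` and of squarefree conductors
composed of primes admissible for all the curves. -/
structure IsCharGroup {m : ℕ} (a b : Fin m → ℤ) (n : ℕ) (H : Subgroup Fam) : Prop where
  pow : ∀ c ∈ H, c ^ (2 ^ n) = 1
  finite : ∀ c ∈ H, {q | c q ≠ 1}.Finite
  admissible : ∀ c ∈ H, ∀ q, c q ≠ 1 → q.Prime ∧ ∀ i, Admissible (a i) (b i) q

/-- The `n`-th Fourier coefficient of `f`. -/
noncomputable def coef {N : ℕ} (f : CuspForm (Gamma0 N : Subgroup (GL (Fin 2) ℝ)) 2) (n : ℕ) : ℂ :=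
  (qExpansion 1 f).coeff n

/-- `f ∈ S_2(Γ₀(N))` is the newform of the elliptic curve `E : y² = x³ + a x + b`, with its standard
properties: the Fourier coefficients `c(n)` of `f` are real with `c(1) = 1`, they satisfy the Hecke
relations `c(mn) = c(m) c(n)` for coprime `m`, `n` and `c(p^(j+2)) = c(p) c(p^(j+1)) - p c(p^j)`
(without the last term if `p ∣ N`) and the bounds `|c(p)| ≤ 2√p` for `p ∤ N`, `|c(p)| ≤ 1` for
`p ∣ N`; `f` is an eigenfunction of the Fricke involution: `f(-1/(Nτ)) = -w N τ² f(τ)` with `w = ±1`;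
for all primes `p ∤ 2Δ` one has `p ∤ N` and `c(p) = a_p(E)`.  (Every elliptic curve over `ℚ` has such a
form by the modularity theorem.) -/
structure IsFormOf (a b : ℤ) (N : ℕ) (f : CuspForm (Gamma0 N : Subgroup (GL (Fin 2) ℝ)) 2) :
    Prop where
  one : coef f 1 = 1
  real : ∀ n, (coef f n).im = 0
  mul : ∀ m n : ℕ, Nat.Coprime m n → coef f (m * n) = coef f m * coef f n
  pow : ∀ p j : ℕ, p.Prime → coef f (p ^ (j + 2)) = coef f p * coef f (p ^ (j + 1)) -
      (if p ∣ N then 0 else (p : ℂ) * coef f (p ^ j))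
  good : ∀ p : ℕ, p.Prime → ¬ p ∣ N → ‖coef f p‖ ≤ 2 * Real.sqrt p
  bad : ∀ p : ℕ, p.Prime → p ∣ N → ‖coef f p‖ ≤ 1
  fricke : ∃ w : ℝ, (w = 1 ∨ w = -1) ∧ ∀ τ τ' : ℍ, (τ' : ℂ) * ((N : ℂ) * (τ : ℂ)) = -1 →
    f τ' = -(w : ℂ) * (N : ℂ) * (τ : ℂ) ^ 2 * f τ
  points : ∀ p : ℕ, GoodPrime a b p → ¬ p ∣ N ∧ coef f p = (p : ℂ) - (pointCount a b p : ℂ)

/-- The coefficient `a = -27 c₄` of the short Weierstrass equation `y² = x³ + a x + b` of `W`. -/
def ca (W : WeierstrassCurve ℤ) : ℤ := -27 * W.c₄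

/-- The coefficient `b = -54 c₆` of the short Weierstrass equation `y² = x³ + a x + b` of `W`. -/
def cb (W : WeierstrassCurve ℤ) : ℤ := -54 * W.c₆

/-- The 2-Selmer group of `W` over `ℚ` is trivial: `W(ℚ)` is finite of odd order and `Ш(W/ℚ)` has no
element of order two. -/
def TrivialTwoSelmer (W : WeierstrassCurve ℤ) : Prop :=
  Finite (W.map (Int.castRingHom ℚ)).toAffine.Point ∧
  Odd (Nat.card (W.map (Int.castRingHom ℚ)).toAffine.Point) ∧
  ∀ s : Pool.Agent.TH841.NF.D.Sha (W.map (Int.castRingHom ℚ)), 2 • s = 0 → s = 0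

/-- The curve `X_0(11) : y² + y = x³ - x² - 10 x - 20`. -/
def X11 : WeierstrassCurve ℤ := ⟨0, -1, 1, -10, -20⟩

/-- The elements of `Gal(ℚ(ζ_m)/ℚ) = (ℤ/m)ˣ` that are trivial on the field `F` of the group `H` of
characters: those at which all the characters in `H` of conductor dividing `m` have the value `1`.  (So
`F` is the part of the abelian field of `H` in `ℚ(ζ_m)`, and `G = Gal(F/ℚ) = (ℤ/m)ˣ / Fixing H m`.) -/
def Fixing (H : Subgroup Fam) (m : ℕ) : Set (ZMod m)ˣ :=
  {u | ∀ c ∈ H, conductor c ∣ m → value c (u : ZMod m).val = 1}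

open Classical in
/-- The Frobenius elements at `p` in `(ℤ/m)ˣ`, `m` squarefree: the `u` that are congruent to `p` modulo
the prime divisors `q ≠ p` of `m`.  They form a coset of the inertia group at `p`. -/
noncomputable def frobenii (m : ℕ) [NeZero m] (p : ℕ) : Finset (ZMod m)ˣ :=
  Finset.univ.filter fun u => ∀ q : ℕ, q.Prime → q ∣ m → q ≠ p → (u : ZMod m).val ≡ p [MOD q]

section motive

variable {m : ℕ} [NeZero m] {g : ℕ} (ρ : (ZMod m)ˣ →* GL (Fin g) ℤ)

/-- The mean value of the matrices `ρ(u)ᵀ` over the Frobenius elements `u` at `p`: the action of the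
Frobenius automorphism on the invariants of the inertia group at `p` of the Artin motive `N`, extended
by zero (the representation `ρ` of a finite group on `ℚ^g` is self-dual, so that one may use the
arithmetic or the geometric Frobenius automorphism, and `ρ` or its transpose). -/
noncomputable def frob (p : ℕ) : Matrix (Fin g) (Fin g) ℂ :=
  ((frobenii m p).card : ℂ)⁻¹ • ∑ u ∈ frobenii m p,
    ((ρ u : Matrix (Fin g) (Fin g) ℤ).transpose).map (Int.cast : ℤ → ℂ)

/-- The polynomial `P_p(T)` of the motive `M = h¹(E)(1) ⊗ N` at a prime `p`, where `f` is the newform of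
`E`: `det (1 - Frob T | M_l^I) = det (1 - (c(p) / p) T Φ + (1 / p) T² Φ²)` with `Φ = frob ρ p`, without
the last term if `p ∣ N` (for every `p` the inertia group acts trivially on one of the two factors
`h¹(E)` and `N`, as `E` has good reduction at the primes dividing `m`). -/
noncomputable def P {N : ℕ} (f : CuspForm (Gamma0 N : Subgroup (GL (Fin 2) ℝ)) 2) (p : ℕ)
    (T : ℂ) : ℂ :=
  (1 - (coef f p / p * T) • frob ρ p + ((if p ∣ N then 0 else (1 / p : ℂ)) * T ^ 2) •
    (frob ρ p) ^ 2).det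

/-- There is a symmetric positive definite form on `ℤ^g` that is invariant under `ρ`; with the Weil
pairing it gives a polarization of `h¹(E)(1) ⊗ N`. -/
def Polarized : Prop := ∃ B : Matrix (Fin g) (Fin g) ℤ, B.transpose = B ∧
  (∀ x : Fin g → ℤ, x ≠ 0 → 0 < dotProduct x (B.mulVec x)) ∧
    ∀ u, (ρ u : Matrix (Fin g) (Fin g) ℤ).transpose * B * (ρ u : Matrix (Fin g) (Fin g) ℤ) = B

/-- The order of vanishing formula for the motive `M = h¹(E)(1) ⊗ N` over `ℚ` and the prime `2`, with both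
sides zero, where `W` is an equation of `E`, `f` its newform, and `κ` the cyclotomic character modulo
`m`: `M` is polarized, `L(s, M) = ∏ P_p(p^(-s))⁻¹` (the product over all the primes) extends to an entire
function, of order `0` at `s = 0`, and `H⁰(ℚ, V_2)` and `H¹_f(ℚ, V_2)` are zero. -/
structure OrderFormula (W : WeierstrassCurve ℤ) {N : ℕ}
    (f : CuspForm (Gamma0 N : Subgroup (GL (Fin 2) ℝ)) 2) (κ : Gal ℚ →* (ZMod m)ˣ) : Prop where
  form : Polarized ρ
  order : ∃ L : ℂ → ℂ, Differentiable ℂ L ∧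
    (∀ s : ℂ, 1 / 2 < s.re → HasProd (fun p : Nat.Primes =>
      (P ρ f p (((p : ℕ) : ℂ) ^ (-s)))⁻¹) (L s)) ∧
    analyticOrderAt L 0 = 0
  h0 : HZeroTrivial W (ρ.comp κ) 2
  h1 : HOneFTrivial W (ρ.comp κ) 2

end motive

/-- The order of vanishing formula for `p = 2`, for all the motives `h¹(W_i)(1) ⊗ N`, where `N` is any Artin
motive over `ℚ` that is trivialized by a finite extension of `ℚ` in the field of `H` (every such extension
is contained in `ℚ(ζ_m)` for a product `m` of different admissible primes; `κ` is the cyclotomic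
character modulo `m`, and `ρ` is the action of `Gal(ℚ(ζ_m)/ℚ) = (ℤ/m)ˣ` on a lattice `ℤ^g`, trivial on the
automorphisms that are trivial on the field of `H`). -/
def AllArtinMotives {k : ℕ} (W : Fin k → WeierstrassCurve ℤ) {N : Fin k → ℕ}
    (f : (i : Fin k) → CuspForm (Gamma0 (N i) : Subgroup (GL (Fin 2) ℝ)) 2) (H : Subgroup Fam) : Prop :=
  ∀ (m : ℕ) [NeZero m], Squarefree m →
    (∀ q : ℕ, q.Prime → q ∣ m → ∀ i, Admissible (ca (W i)) (cb (W i)) q) →
    ∀ (κ : Gal ℚ →* (ZMod m)ˣ),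
    (∀ (σ : Gal ℚ) (ζ : AlgebraicClosure ℚ), ζ ^ m = 1 → σ ζ = ζ ^ ((κ σ : ZMod m)).val) →
    ∀ (g : ℕ) (ρ : (ZMod m)ˣ →* GL (Fin g) ℤ), (∀ u ∈ Fixing H m, ρ u = 1) → ∀ i,
      OrderFormula ρ (W i) (f i) κ

/-- The set of the `r`-tuples of elements of `H`. -/
def Tuples (H : Subgroup Fam) (r : ℕ) : Set (Fin r → Fam) := {c | ∀ j, c j ∈ H}

/-- The property `P` holds for a proportion at least `2 ^ (-V)` of the `r`-tuples in `H`: there is a set
`K` of at most `2 ^ V` tuples in `H` such that every tuple in `H` can be multiplied by an element of `K`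
so that the product has the property `P`; so the proportion of the tuples with `P` is at least
`2 ^ (-V)` if `H` is finite, and if `H` is infinite, the number of the tuples with product of the
conductors at most `X` is at most `2 ^ V` times the number of the tuples with `P` and with product of
the conductors at most `C X`, `C` independent of `X`. -/
def ManyTuples (V : ℕ) (H : Subgroup Fam) (r : ℕ) (P : (Fin r → Fam) → Prop) : Prop :=
  (∃ K : Finset (Fin r → Fam), K.card ≤ 2 ^ V ∧ (K : Set (Fin r → Fam)) ⊆ Tuples H r ∧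
    ∀ c ∈ Tuples H r, ∃ k ∈ K, P (fun j => c j * k j)) ∧
  ((H : Set Fam).Finite → (Tuples H r).ncard ≤ 2 ^ V * {c | c ∈ Tuples H r ∧ P c}.ncard) ∧
  ∃ C : ℕ, ∀ X : ℕ, {c | c ∈ Tuples H r ∧ ∏ j, conductor (c j) ≤ X}.ncard ≤
    2 ^ V * {c | (c ∈ Tuples H r ∧ P c) ∧ ∏ j, conductor (c j) ≤ C * X}.ncard

/-! ### Proof -/

theorem polarized {m : ℕ} [NeZero m] {g : ℕ} (ρ : (ZMod m)ˣ →* GL (Fin g) ℤ) : Polarized ρ := by
  refine ⟨∑ σ : (ZMod m)ˣ,
    (ρ σ : Matrix (Fin g) (Fin g) ℤ).transpose * (ρ σ : Matrix (Fin g) (Fin g) ℤ), ?_, ?_, ?_⟩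
  · rw [Matrix.transpose_sum]
    refine Finset.sum_congr rfl fun σ _ => ?_
    rw [Matrix.transpose_mul, Matrix.transpose_transpose]
  · intro x hx
    have h1 : ∀ A : Matrix (Fin g) (Fin g) ℤ, dotProduct x ((A.transpose * A).mulVec x) =
        dotProduct (A.mulVec x) (A.mulVec x) := by
      intro A
      rw [← Matrix.mulVec_mulVec, Matrix.dotProduct_mulVec, Matrix.vecMul_transpose]
    rw [Matrix.sum_mulVec, dotProduct_sum]
    refine Finset.sum_pos' (fun σ _ => ?_) ⟨1, Finset.mem_univ _, ?_⟩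
    · rw [h1]
      exact Finset.sum_nonneg fun i _ => mul_self_nonneg _
    · rw [h1, map_one, Units.val_one, Matrix.one_mulVec]
      obtain ⟨i, hi⟩ : ∃ i, x i ≠ 0 := Function.ne_iff.1 hx
      refine Finset.sum_pos' (fun i _ => mul_self_nonneg _) ⟨i, Finset.mem_univ _, ?_⟩
      exact mul_self_pos.2 hi
  · intro τ
    rw [Finset.mul_sum, Finset.sum_mul]
    refine Fintype.sum_equiv (Equiv.mulRight τ) _ _ fun σ => ?_
    rw [Equiv.coe_mulRight, map_mul, Units.val_mul, Matrix.transpose_mul]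
    simp only [Matrix.mul_assoc]

/-- A group with the properties of the library satisfies the formula. -/
theorem of_gp {k : ℕ} {W : Fin k → WeierstrassCurve ℤ} {N : Fin k → ℕ}
    {f : (i : Fin k) → CuspForm (Gamma0 (N i) : Subgroup (GL (Fin 2) ℝ)) 2}
    (hΔ : ∀ i, (W i).Δ ≠ 0) (hS : ∀ i, TrivialTwoSelmer (W i)) (hN : ∀ i, N i ≠ 0)
    (hf : ∀ i, IsFormOf (ca (W i)) (cb (W i)) (N i) (f i)) {n : ℕ} {H : Subgroup Fam}
    (hG : Pool.Agent.R425.T.Gp W f n H) : AllArtinMotives W f H := by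
  intro m _ hsq hm κ hκ g ρ hρ i
  have : ∀ i, NeZero (N i) := fun i => ⟨hN i⟩
  have hf' : ∀ i, Pool.Agent.Y18.BSD.IsFormOf (ca (W i)) (cb (W i)) (N i) (f i) := fun i =>
    ⟨(hf i).one, (hf i).real, (hf i).mul, (hf i).pow, (hf i).good, (hf i).bad,
      (hf i).fricke, (hf i).points⟩
  have hU : ∀ u : (ZMod m)ˣ, u ∈ Fixing H m ↔ u ∈ Pool.Agent.R425.T.UU0 H m := fun u =>
    Pool.Agent.R425.T.ker_iff hG.ok.fin (fun c hc q hq => (hG.ok.adm c hc q hq).1) hsq u
  have hρ' : ∀ u ∈ Pool.Agent.R425.T.UU0 H m, ρ u = 1 := fun u hu => hρ u ((hU u).2 hu)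
  obtain ⟨-, a1, -, a3⟩ := Pool.Agent.R425.T.gp_alg hΔ
    (fun i => ⟨(hS i).1, (hS i).2.1, (hS i).2.2⟩) hG m hm κ hκ ρ hρ' i
  have hfin : {P : Pool.Agent.K4H13.BK.PtA (W i) g (AlgebraicClosure ℚ) | ∀ σ : Gal ℚ,
      Pool.Agent.K4H13.BK.actA (W i) (ρ.comp κ) σ P = P}.Finite := @Set.toFinite _ _ a1
  set T : (ZMod m)ˣ → Matrix (Fin g) (Fin g) ℂ := fun u =>
    ((ρ u : Matrix (Fin g) (Fin g) ℤ).transpose).map (Int.cast : ℤ → ℂ) with hT
  have hT1 : T 1 = 1 := by
    rw [hT]
    show ((ρ 1 : Matrix (Fin g) (Fin g) ℤ).transpose).map (Int.cast : ℤ → ℂ) = 1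
    rw [map_one, Units.val_one, Matrix.transpose_one,
      Matrix.map_one (Int.cast : ℤ → ℂ) Int.cast_zero Int.cast_one]
  have hT2 : ∀ u v, T (u * v) = T u * T v := by
    intro u v
    show ((ρ (u * v) : Matrix (Fin g) (Fin g) ℤ).transpose).map (Int.cast : ℤ → ℂ) =
      ((ρ u : Matrix (Fin g) (Fin g) ℤ).transpose).map (Int.cast : ℤ → ℂ) *
        ((ρ v : Matrix (Fin g) (Fin g) ℤ).transpose).map (Int.cast : ℤ → ℂ)
    rw [mul_comm u v, map_mul, Units.val_mul, Matrix.transpose_mul]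
    exact Matrix.map_mul (f := Int.castRingHom ℂ)
  have hT3 : ∀ u ∈ Pool.Agent.R425.T.UU0 H m, T u = 1 := by
    intro u hu
    have h1 : T u = T 1 := by
      show ((ρ u : Matrix (Fin g) (Fin g) ℤ).transpose).map (Int.cast : ℤ → ℂ) =
        ((ρ 1 : Matrix (Fin g) (Fin g) ℤ).transpose).map (Int.cast : ℤ → ℂ)
      rw [hρ' u hu, map_one]
    rw [h1, hT1]
  obtain ⟨G, hG1, hG2, hG3⟩ := Pool.Agent.R425.T.gp_an hf' hG m hsq hm T hT1 hT2 hT3 i
  have hL : Differentiable ℂ (fun s : ℂ => G (s + 1)) := hG1.comp (by fun_prop)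
  refine ⟨polarized ρ, ⟨fun s => G (s + 1), hL, fun s hs => ?_, ?_⟩,
    Pool.Agent.K4H13.BK.hZero hfin, Pool.Agent.K4H13.BK.hOneF Nat.prime_two hfin 0
      fun c hc hloc hreal j hj => ?_⟩
  · have h6 : (3 / 2 : ℝ) < (s + 1).re := by
      rw [Complex.add_re, Complex.one_re]
      linarith
    have h5 : (fun p : Nat.Primes => (P ρ (f i) p (((p : ℕ) : ℂ) ^ (-s)))⁻¹) =
        fun p : Nat.Primes => (Pool.Agent.R425.T.PT T (N i) (Pool.Agent.Y18.BSD.co (f i)) p
          (((p : ℕ) : ℂ) ^ (-(s + 1))))⁻¹ := by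
      funext p
      have hp0 : ((p : ℕ) : ℂ) ≠ 0 := by exact_mod_cast p.2.ne_zero
      have h1 : ((p : ℕ) : ℂ) ^ (-(s + 1)) = ((p : ℕ) : ℂ)⁻¹ * ((p : ℕ) : ℂ) ^ (-s) := by
        rw [neg_add, Complex.cpow_add _ _ hp0, Complex.cpow_neg_one, mul_comm]
      have h2 : P ρ (f i) p (((p : ℕ) : ℂ) ^ (-s)) = (1 - (coef (f i) p / ((p : ℕ) : ℂ) *
          ((p : ℕ) : ℂ) ^ (-s)) • Pool.Agent.R425.T.fav T p + ((if (p : ℕ) ∣ N i then 0 else
          (1 / ((p : ℕ) : ℂ))) * (((p : ℕ) : ℂ) ^ (-s)) ^ 2) •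
            (Pool.Agent.R425.T.fav T p) ^ 2).det := rfl
      rw [h2, Pool.Agent.R425.T.PT, h1]
      congr 4
      · congr 1
        show coef (f i) p / ((p : ℕ) : ℂ) * ((p : ℕ) : ℂ) ^ (-s) =
          coef (f i) p * (((p : ℕ) : ℂ)⁻¹ * ((p : ℕ) : ℂ) ^ (-s))
        ring
      · split_ifs with h
        · simp
        · field_simp
    rw [h5]
    exact hG2 (s + 1) h6
  · refine (hL.analyticAt 0).analyticOrderAt_eq_zero.2 ?_
    simpa using hG3
  · have h7 := a3 (QuotientAddGroup.mk (⟨c, ⟨hc, hloc, hreal⟩⟩ :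
      Pool.Agent.Y702.A.shaCocA (W i) (ρ.comp κ))) j (by
      rw [← QuotientAddGroup.mk_nsmul, QuotientAddGroup.eq_zero_iff]
      refine ⟨0, fun σ => ?_⟩
      rw [map_zero, sub_zero]
      exact hj σ)
    rw [QuotientAddGroup.eq_zero_iff] at h7
    obtain ⟨P, hP⟩ := h7
    exact ⟨P, fun σ => by
      rw [pow_zero, one_smul]
      exact hP σ⟩

/-- **Theorem.** Let `W_1, …, W_k` be elliptic curves over `ℚ` with trivial 2-Selmer group and
`L(W_i, 1) ≠ 0`, and with newforms `f_i`. Let `H` denote any group of Dirichlet characters of order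
dividing `2 ^ n` and of squarefree conductors composed of primes `q` of good reduction modulo which all
the `W_i` have an odd number of points.

(1) Every infinite `H` has an infinite subgroup `H'` such that the order of vanishing formula holds for
`p = 2`, with both sides zero, for all the polarized motives `h¹(W_i)(1) ⊗ N` over `ℚ`, `N` any Artin
motive over `ℚ` trivialized by a finite extension of `ℚ` in the field of `H'`: `L(s, M)` is entire and not
zero at `s = 0`, and `H⁰(ℚ, M_2) = 0`, `H¹_f(ℚ, M_2) = 0`.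

(2) For every `r` there is `V`, independent of `H`, such that for a proportion at least `2 ^ (-V)` of the
`r`-tuples in `H` the same holds for all the Artin motives of the field of the group generated by the
tuple.

(3) The curve `X_0(11)` satisfies the hypotheses. -/
theorem result :
    (∀ (k : ℕ) (W : Fin k → WeierstrassCurve ℤ) (N : Fin k → ℕ)
      (f : (i : Fin k) → CuspForm (Gamma0 (N i) : Subgroup (GL (Fin 2) ℝ)) 2),
      (∀ i, (W i).Δ ≠ 0) → (∀ i, TrivialTwoSelmer (W i)) → (∀ i, N i ≠ 0) →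
      (∀ i, IsFormOf (ca (W i)) (cb (W i)) (N i) (f i)) →
      (∀ i, AnalyticRankZero (ca (W i)) (cb (W i))) → ∀ n : ℕ,
      (∀ H : Subgroup Fam, IsCharGroup (fun i => ca (W i)) (fun i => cb (W i)) n H →
        (H : Set Fam).Infinite →
        ∃ H' : Subgroup Fam, H' ≤ H ∧ (H' : Set Fam).Infinite ∧ AllArtinMotives W f H') ∧
      ∀ r : ℕ, ∃ V : ℕ, ∀ H : Subgroup Fam,
        IsCharGroup (fun i => ca (W i)) (fun i => cb (W i)) n H →
        ManyTuples V H r fun c => AllArtinMotives W f (Subgroup.closure (Set.range c))) ∧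
    (X11.Δ ≠ 0 ∧ TrivialTwoSelmer X11 ∧ (∃ f : CuspForm (Gamma0 11 : Subgroup (GL (Fin 2) ℝ)) 2,
      IsFormOf (ca X11) (cb X11) 11 f) ∧ AnalyticRankZero (ca X11) (cb X11)) := by
  refine ⟨?_, ?_, ?_, ?_, ?_⟩
  · intro k W N f hΔ hS hN hf h0 n
    have : ∀ i, NeZero (N i) := fun i => ⟨hN i⟩
    have hne : ∀ i, 4 * ca (W i) ^ 3 + 27 * cb (W i) ^ 2 ≠ 0 := by
      intro i
      have h1 : 4 * ca (W i) ^ 3 + 27 * cb (W i) ^ 2 = -136048896 * (W i).Δ :=
        Pool.Agent.R901.EC.ca_cb (W i)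
      rw [h1]
      exact mul_ne_zero (by norm_num) (hΔ i)
    have hf' : ∀ i, Pool.Agent.Y18.BSD.IsFormOf (ca (W i)) (cb (W i)) (N i) (f i) := fun i =>
      ⟨(hf i).one, (hf i).real, (hf i).mul, (hf i).pow, (hf i).good, (hf i).bad,
        (hf i).fricke, (hf i).points⟩
    have hv : ∀ i, Pool.Agent.Y18.BSD.bv (f i) 0 ≠ 0 := fun i =>
      Pool.Agent.Y18.LP.bv0_ne (hne i) (hf' i) (h0 i)
    refine ⟨fun H hH hinf => ?_, fun r => ?_⟩
    · obtain ⟨H', h1, h2, h3⟩ := Pool.Agent.R425.T.gp_infinite hΔ hf' hv n H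
        ⟨hH.pow, hH.finite, hH.admissible⟩ hinf
      exact ⟨H', h1, h2, of_gp hΔ hS hN hf h3⟩
    · obtain ⟨V, hV⟩ := Pool.Agent.R425.T.gp_tuples hΔ hf' hv n r
      refine ⟨V, fun H hH => ?_⟩
      obtain ⟨K, h1, h2, h3⟩ := hV H ⟨hH.pow, hH.finite, hH.admissible⟩
      have h4 : ∀ c : Fin r → Fam, (∀ j, c j ∈ H) → ∃ x ∈ K,
          (fun c : Fin r → Fam => AllArtinMotives W f (Subgroup.closure (Set.range c)))
            (fun j => c j * x j) := by
        intro c hc
        obtain ⟨x, hx, h5⟩ := h3 c hc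
        exact ⟨x, hx, of_gp hΔ hS hN hf h5⟩
      refine ⟨⟨K, h1, fun x hx => h2 x hx, h4⟩, ?_⟩
      exact Pool.Agent.R901.EC.many_tuples hH.finite
        (fun c hc q hq => (hH.admissible c hc q hq).1) K h1 h2 h4
  · norm_num [X11, WeierstrassCurve.Δ, WeierstrassCurve.b₂, WeierstrassCurve.b₄,
      WeierstrassCurve.b₆, WeierstrassCurve.b₈]
  · obtain ⟨h1, h2, h3⟩ := Pool.Agent.R901.EC.sel11
    exact ⟨h2, h3, h1⟩
  · have e1 : ca X11 = -13392 := by
      norm_num [ca, X11, WeierstrassCurve.c₄, WeierstrassCurve.b₂, WeierstrassCurve.b₄]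
    have e2 : cb X11 = -1080432 := by
      norm_num [cb, X11, WeierstrassCurve.c₆, WeierstrassCurve.b₂, WeierstrassCurve.b₄,
        WeierstrassCurve.b₆]
    rw [e1, e2]
    have h := Pool.Agent.Y18.BSD.Eleven.isFormOf
    exact ⟨_, ⟨h.one, h.real, h.mul, h.pow, h.good, h.bad, h.fricke, h.points⟩⟩
  · have e1 : ca X11 = -13392 := by
      norm_num [ca, X11, WeierstrassCurve.c₄, WeierstrassCurve.b₂, WeierstrassCurve.b₄]
    have e2 : cb X11 = -1080432 := by
      norm_num [cb, X11, WeierstrassCurve.c₆, WeierstrassCurve.b₂, WeierstrassCurve.b₄,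
        WeierstrassCurve.b₆]
    rw [e1, e2]
    exact Pool.Agent.Y18.NF.rankZero11

end Pool.Agent.Results.MP_ec4e4b_nt.InfiniteExtensionsArtinMotives
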